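import Pool.Agent.H61.HB.Stmts5
import Pool.Agent.H91.HB.TWC

/-!
Project HB (MP_91403e_an), row TC3: the production term in `H^(-3/2)` (model: row TWC, helper91).
-/

set_option autoImplicit false

namespace HB

theorem tc3_pt {F H K : ℝ} (hK : 1 ≤ K) :
    F / (K ^ 2 * K) * (K * H) ≤ √(F ^ 2 / (K ^ 2 * K)) * √(K * H ^ 2) := by
  have hK0 : 0 < K := by linarith
  rw [← Real.sqrt_mul (by positivity)]
  apply Real.le_sqrt_of_sq_le
  have e1 : (F / (K ^ 2 * K) * (K * H)) ^ 2 = F ^ 2 * H ^ 2 / K ^ 4 := by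
    field_simp
  have e2 : F ^ 2 / (K ^ 2 * K) * (K * H ^ 2) = F ^ 2 * H ^ 2 / K ^ 2 := by
    field_simp
  rw [e1, e2]
  apply div_le_div_of_nonneg_left (by positivity) (by positivity)
  exact pow_le_pow_right₀ hK (by norm_num)

theorem tc3_thm (hTR3 : TR3Stmt) (hGR3 : GR3Stmt) : TC3Stmt := by
  intro w f h hw hf hh
  obtain ⟨g1, -, -⟩ := hGR3
  obtain ⟨-, fs4, -, -, -, -⟩ := g1 f hf
  obtain ⟨hs1, -, -, -, -, -⟩ := g1 h hh
  have hw0 : ∀ k : Z2, 0 ≤ sq k * √(sq k) := fun k =>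
    mul_nonneg (twc_sq_nonneg k) (Real.sqrt_nonneg _)
  set a : Z2 → ℝ := fun l => √(∑ i, ‖off (w i) l‖ ^ 2) with ha
  set b : Z2 → ℝ := fun p => ‖h p‖ with hb
  have ha0 : ∀ l, 0 ≤ a l := fun l => Real.sqrt_nonneg _
  have hb0 : ∀ l, 0 ≤ b l := fun l => norm_nonneg _
  have ha00 : a 0 = 0 := by
    rw [ha]
    simp [off]
  have ha2 : ∀ l, √(sq l) * a l ^ 2 = ∑ i, √(sq l) * ‖w i l‖ ^ 2 := fun l => by
    have : a l ^ 2 = ∑ i, ‖off (w i) l‖ ^ 2 :=
      Real.sq_sqrt (Finset.sum_nonneg fun i _ => sq_nonneg _)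
    rw [this, Finset.mul_sum]
    refine Finset.sum_congr rfl fun i _ => ?_
    by_cases hl : l = 0
    · subst hl
      have h0 : sq (0 : Z2) = 0 := by
        unfold sq
        simp
      rw [h0]
      simp
    · simp only [off, if_neg hl]
  have hwi : ∀ i, Summable fun l => √(sq l) * ‖w i l‖ ^ 2 := fun i =>
    (g1 (w i) (hw i)).1
  have hsa : Summable fun l => √(sq l) * a l ^ 2 := by
    simp only [ha2]
    exact summable_sum fun i _ => hwi i
  have hsb : Summable fun l => √(sq l) * b l ^ 2 := hs1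
  have hta : ∑' l, √(sq l) * a l ^ 2 = hp w := by
    simp only [ha2]
    unfold hp hpS
    exact Summable.tsum_finsetSum fun i _ => hwi i
  have htb : ∑' l, √(sq l) * b l ^ 2 = hpS h := rfl
  obtain ⟨hF, hFle⟩ := hTR3 f a b hf ha0 hb0 ha00 hsa hsb
  rw [hta, htb] at hFle
  -- bound of `dot`
  have hm0 : ∀ k : Z2, ‖trm w h k 0‖ ≤ √(mu w) * (√(sq k) * b k) := by
    intro k
    have := twc_trm w h k 0
    rw [sub_zero] at this
    exact this
  have hdot : ∀ k : Z2, (Summable fun l => a l * (√(sq (k - l)) * b (k - l))) →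
      ‖dot w h k‖ ≤ √(mu w) * (√(sq k) * b k) + ∑' l, a l * (√(sq (k - l)) * b (k - l)) := by
    intro k hconv
    have h1 : HasSum (fun l : Z2 => (if l = 0 then √(mu w) * (√(sq k) * b k) else 0) +
        a l * (√(sq (k - l)) * b (k - l)))
        (√(mu w) * (√(sq k) * b k) + ∑' l, a l * (√(sq (k - l)) * b (k - l))) :=
      (hasSum_ite_eq 0 _).add hconv.hasSum
    refine tsum_of_norm_bounded h1 fun l => ?_
    by_cases hl : l = 0
    · subst hl
      rw [if_pos rfl]
      have h2 := hm0 k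
      have h3 : 0 ≤ a 0 * (√(sq (k - 0)) * b (k - 0)) :=
        mul_nonneg (ha0 _) (mul_nonneg (Real.sqrt_nonneg _) (hb0 _))
      linarith
    · rw [if_neg hl, zero_add]
      have h2 := twc_trm w h k l
      have h3 : a l = √(∑ i, ‖w i l‖ ^ 2) := by
        rw [ha]
        simp only [off, if_neg hl]
      rw [h3]
      exact h2
  -- the first series
  have hcs := twc_cs (fun k => √(‖off f k‖ ^ 2 / (sq k * √(sq k)))) (fun k => √(√(sq k) * b k ^ 2))
    (fun k => Real.sqrt_nonneg _) (fun k => Real.sqrt_nonneg _)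
    (by
      have : (fun k : Z2 => √(‖off f k‖ ^ 2 / (sq k * √(sq k))) ^ 2) =
          fun k => ‖off f k‖ ^ 2 / (sq k * √(sq k)) := by
        ext k
        exact Real.sq_sqrt (div_nonneg (sq_nonneg _) (hw0 k))
      rw [this]
      exact fs4)
    (by
      have : (fun k : Z2 => √(√(sq k) * b k ^ 2) ^ 2) = fun k => √(sq k) * b k ^ 2 := by
        ext k
        exact Real.sq_sqrt (mul_nonneg (Real.sqrt_nonneg _) (sq_nonneg _))
      rw [this]
      exact hsb)
  have hp2 : ∑' k : Z2, √(‖off f k‖ ^ 2 / (sq k * √(sq k))) ^ 2 = hnS f := by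
    unfold hnS
    refine tsum_congr fun k => ?_
    exact Real.sq_sqrt (div_nonneg (sq_nonneg _) (hw0 k))
  have hp3 : ∑' k : Z2, √(√(sq k) * b k ^ 2) ^ 2 = hpS h := by
    rw [← htb]
    refine tsum_congr fun k => ?_
    exact Real.sq_sqrt (mul_nonneg (Real.sqrt_nonneg _) (sq_nonneg _))
  rw [hp2, hp3] at hcs
  obtain ⟨hcs1, hcs2⟩ := hcs
  -- pointwise
  have hFk : ∀ k : Z2, ∑' l, ‖off f k‖ / (sq k * √(sq k)) * (a l * (√(sq (k - l)) * b (k - l))) =
      ‖off f k‖ / (sq k * √(sq k)) * ∑' l, a l * (√(sq (k - l)) * b (k - l)) :=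
    fun k => tsum_mul_left
  have hpt : ∀ k : Z2, ‖((starRingEnd ℂ) (off f k) * dot w h k).re / (sq k * √(sq k))‖ ≤
      √(mu w) * (√(‖off f k‖ ^ 2 / (sq k * √(sq k))) * √(√(sq k) * b k ^ 2)) +
        ∑' l, ‖off f k‖ / (sq k * √(sq k)) * (a l * (√(sq (k - l)) * b (k - l))) := by
    intro k
    rw [hFk]
    by_cases hfk : off f k = 0
    · rw [hfk]
      simp
    · have hk : k ≠ 0 := by
        rintro rfl
        exact hfk (by simp [off])
      have h1 := twc_sq_one hk
      have h0 : 0 < sq k := by linarith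
      have hK : 1 ≤ √(sq k) := by
        rw [Real.one_le_sqrt]
        exact h1
      have hK0 : 0 < √(sq k) := by linarith
      have hKK : √(sq k) ^ 2 = sq k := Real.sq_sqrt h0.le
      have hpos : 0 < sq k * √(sq k) := mul_pos h0 hK0
      have hfk0 : 0 < ‖off f k‖ := norm_pos_iff.mpr hfk
      have hconv : Summable fun l => a l * (√(sq (k - l)) * b (k - l)) := by
        have := hF.prod_factor k
        rw [summable_mul_left_iff (div_pos hfk0 hpos).ne'] at this
        exact this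
      rw [Real.norm_eq_abs, abs_div, abs_of_pos hpos]
      have h2 : |((starRingEnd ℂ) (off f k) * dot w h k).re| ≤ ‖off f k‖ * ‖dot w h k‖ := by
        refine (Complex.abs_re_le_norm _).trans ?_
        rw [norm_mul, RCLike.norm_conj]
      have h3 : |((starRingEnd ℂ) (off f k) * dot w h k).re| / (sq k * √(sq k)) ≤
          ‖off f k‖ / (sq k * √(sq k)) * (√(mu w) * (√(sq k) * b k) +
            ∑' l, a l * (√(sq (k - l)) * b (k - l))) := by
        calc |((starRingEnd ℂ) (off f k) * dot w h k).re| / (sq k * √(sq k))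
            ≤ ‖off f k‖ * ‖dot w h k‖ / (sq k * √(sq k)) := by
              exact div_le_div_of_nonneg_right h2 hpos.le
          _ = ‖off f k‖ / (sq k * √(sq k)) * ‖dot w h k‖ := by ring
          _ ≤ _ := mul_le_mul_of_nonneg_left (hdot k hconv)
              (div_nonneg (norm_nonneg _) hpos.le)
      refine h3.trans ?_
      rw [mul_add]
      have h4 : ‖off f k‖ / (sq k * √(sq k)) * (√(sq k) * b k) ≤
          √(‖off f k‖ ^ 2 / (sq k * √(sq k))) * √(√(sq k) * b k ^ 2) := by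
        have := tc3_pt (F := ‖off f k‖) (H := b k) hK
        rw [hKK] at this
        exact this
      have h5 : ‖off f k‖ / (sq k * √(sq k)) * (√(mu w) * (√(sq k) * b k)) ≤
          √(mu w) * (√(‖off f k‖ ^ 2 / (sq k * √(sq k))) * √(√(sq k) * b k ^ 2)) := by
        calc ‖off f k‖ / (sq k * √(sq k)) * (√(mu w) * (√(sq k) * b k))
            = √(mu w) * (‖off f k‖ / (sq k * √(sq k)) * (√(sq k) * b k)) := by ring
          _ ≤ _ := mul_le_mul_of_nonneg_left h4 (Real.sqrt_nonneg _)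
      linarith
  have hG := (hcs1.mul_left (√(mu w))).hasSum.add hF.prod.hasSum
  have hfin := tsum_of_norm_bounded hG hpt
  rw [Real.norm_eq_abs] at hfin
  refine hfin.trans ?_
  rw [tsum_mul_left]
  have h7 : ∑' k : Z2, ∑' l : Z2, ‖off f k‖ / (sq k * √(sq k)) *
        (a l * (√(sq (k - l)) * b (k - l))) =
      ∑' x : Z2 × Z2, ‖off f x.1‖ / (sq x.1 * √(sq x.1)) *
        (a x.2 * (√(sq (x.1 - x.2)) * b (x.1 - x.2))) := by
    rw [hF.tsum_prod]
  have h8 : √(mu w) * ∑' k, √(‖off f k‖ ^ 2 / (sq k * √(sq k))) * √(√(sq k) * b k ^ 2) ≤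
      √(mu w) * (√(hpS h) * √(hnS f)) := by
    apply mul_le_mul_of_nonneg_left _ (Real.sqrt_nonneg _)
    rw [mul_comm (√(hpS h))]
    exact hcs2
  have h10 : (∑' k : Z2, ∑' l : Z2, ‖off f (k, l).1‖ / (sq (k, l).1 * √(sq (k, l).1)) *
      (a (k, l).2 * (√(sq ((k, l).1 - (k, l).2)) * b ((k, l).1 - (k, l).2)))) ≤
      2 * √cZ * √(hnS f) * (√(hp w) * √(hpS h)) := by
    refine le_of_eq_of_le ?_ hFle
    exact h7
  linarith

end HB
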