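import Pool.Agent.H46.HB.ENE
import Pool.Agent.H61.HB.Stmts2

/-!
Project HB, row WEN (weighted energy of the difference of two solutions).
-/

set_option autoImplicit false

namespace HB

open Filter Topology Set

/-- a component of a continuous path -/
theorem ctsS_comp (hMMB : MMBStmt) {s T : ℝ} {u : ℝ → V} (hu : Cts s T u) (j : Fin 2) :
    CtsS s T (fun t => u t j) := by
  obtain ⟨h0, h1, h2, h3, h4, h5⟩ := hMMB
  refine ⟨fun t ht => hu.1 t ht j, fun t ht => ?_⟩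
  refine squeeze_zero' (Eventually.of_forall fun _ => h0 _ _) ?_ (hu.2 t ht)
  refine Eventually.of_forall fun x => ?_
  have e : u x j - u t j = (u x - u t) j := rfl
  rw [e]
  unfold nsq
  exact Finset.single_le_sum (f := fun i => nqS s ((u x - u t) i)) (fun i _ => h0 _ _)
    (Finset.mem_univ j)

/-- multiplication by a bounded real sequence -/
noncomputable def mlt (m : Z2 → ℝ) (f : Z2 → ℂ) : Z2 → ℂ := fun k => (m k : ℂ) * f k

theorem norm_mlt (m : Z2 → ℝ) (f : Z2 → ℂ) (k : Z2) : ‖mlt m f k‖ ^ 2 = m k ^ 2 * ‖f k‖ ^ 2 := by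
  unfold mlt
  rw [norm_mul, Complex.norm_real, Real.norm_eq_abs, mul_pow, sq_abs]

theorem memS_mlt {s : ℝ} {m : Z2 → ℝ} (hm : ∀ k, m k ^ 2 ≤ 1) {f : Z2 → ℂ} (hf : MemS s f) :
    MemS s (mlt m f) ∧ nqS s (mlt m f) ≤ nqS s f := by
  have hle : ∀ k, (1 + sq k) ^ s * ‖mlt m f k‖ ^ 2 ≤ (1 + sq k) ^ s * ‖f k‖ ^ 2 := by
    intro k
    have hp : (0 : ℝ) ≤ (1 + sq k) ^ s := Real.rpow_nonneg (by have := sq_nonneg' k; linarith) _
    refine mul_le_mul_of_nonneg_left ?_ hp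
    rw [norm_mlt]
    have h1 : 0 ≤ ‖f k‖ ^ 2 := by positivity
    nlinarith [hm k]
  have hs : MemS s (mlt m f) := by
    refine Summable.of_nonneg_of_le (fun k => ?_) hle hf
    have hp : (0 : ℝ) ≤ (1 + sq k) ^ s := Real.rpow_nonneg (by have := sq_nonneg' k; linarith) _
    positivity
  exact ⟨hs, Summable.tsum_le_tsum hle hs hf⟩

theorem mlt_sub (m : Z2 → ℝ) (f g : Z2 → ℂ) : mlt m f - mlt m g = mlt m (f - g) := by
  funext k
  simp only [mlt, Pi.sub_apply]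
  ring

theorem ctsS_mlt (hMMB : MMBStmt) {s T : ℝ} {m : Z2 → ℝ} (hm : ∀ k, m k ^ 2 ≤ 1)
    {h : ℝ → Z2 → ℂ} (hh : CtsS s T h) : CtsS s T (fun t => mlt m (h t)) := by
  obtain ⟨h0, h1, h2, -, -, -⟩ := hMMB
  refine ⟨fun t ht => (memS_mlt hm (hh.1 t ht)).1, fun t ht => ?_⟩
  refine squeeze_zero' (Eventually.of_forall fun _ => h0 _ _) ?_ (hh.2 t ht)
  filter_upwards [self_mem_nhdsWithin] with x hx
  rw [mlt_sub]
  exact (memS_mlt hm (h2 s _ _ (hh.1 x hx) (hh.1 t ht)).1).2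

theorem prdf_eq (hMMB : MMBStmt) {f g : Z2 → ℂ} (hf : MemS 0 f) (hg : MemS 0 g) :
    HasSum (fun k => ((starRingEnd ℂ) (f k) * g k).re)
      (1 / 4 * (nqS 0 (f + g) - nqS 0 (f - g))) := by
  obtain ⟨h0, h1, h2, -, -, -⟩ := hMMB
  have hp := (h2 0 _ _ hf hg).2.1
  have hm := (h2 0 _ _ hf hg).1
  rw [memS_zero_iff] at hp hm
  have e : ∀ k, 1 / 4 * (‖(f + g) k‖ ^ 2 - ‖(f - g) k‖ ^ 2) =
      ((starRingEnd ℂ) (f k) * g k).re := by
    intro k
    rw [Pi.add_apply, Pi.sub_apply, ← Complex.normSq_eq_norm_sq, ← Complex.normSq_eq_norm_sq]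
    simp only [Complex.normSq_apply, Complex.add_re, Complex.add_im, Complex.sub_re,
      Complex.sub_im, Complex.mul_re, Complex.conj_re, Complex.conj_im]
    ring
  have hs := (hp.hasSum.sub hm.hasSum).mul_left (1 / 4)
  rw [← nqS_zero_eq, ← nqS_zero_eq] at hs
  have e' : (fun k => 1 / 4 * (‖(f + g) k‖ ^ 2 - ‖(f - g) k‖ ^ 2)) =
      fun k => ((starRingEnd ℂ) (f k) * g k).re := funext e
  rw [← e']
  exact hs

/-- the energy identity for scalar paths -/
theorem energy_gen (hCON : CONStmt) (hMMB : MMBStmt) {ν T : ℝ} (hν : 0 < ν) (hT : 0 ≤ T)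
    {f g : ℝ → Z2 → ℂ} (hf2 : CtsS 2 T f) (hg0 : CtsS 0 T g)
    (hder : ∀ k, ∀ t ∈ Icc 0 T, HasDerivWithinAt (fun r => f r k)
      (-((ν * sq k ^ 2 : ℝ) : ℂ) * f t k - g t k) (Icc 0 T) t) :
    ∀ t ∈ Icc 0 T, HasDerivWithinAt (fun r => ∑' k, ‖f r k‖ ^ 2)
      (∑' k, (-2 * ν * (sq k ^ 2 * ‖f t k‖ ^ 2) - 2 * ((starRingEnd ℂ) (f t k) * g t k).re))
      (Icc 0 T) t := by
  have hf1 : CtsS 1 T f := ctsS_mono hMMB (by norm_num) hf2
  have hf0 : CtsS 0 T f := ctsS_mono hMMB (by norm_num) hf2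
  -- continuity
  have cds : ContinuousOn (fun t => dsS (f t)) (Icc 0 T) := by
    have h := (((ctsS_con hCON hf2).2).sub (((ctsS_con hCON hf1).2).const_smul (2 : ℝ))).add
      (ctsS_con hCON hf0).2
    refine h.congr fun t ht => ?_
    rw [(summable_ds hMMB (hf2.1 t ht)).2]
    simp [smul_eq_mul]
  let pr : ℝ → ℝ := fun t => 1 / 4 * (nqS 0 (f t + g t) - nqS 0 (f t - g t))
  have cpr : ContinuousOn pr (Icc 0 T) := by
    have h := (((ctsS_con hCON (ctsS_add hMMB hf0 hg0)).2).sub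
      (ctsS_con hCON (ctsS_sub hMMB hf0 hg0)).2).const_smul (1 / 4 : ℝ)
    refine h.congr fun t ht => ?_
    simp [pr, smul_eq_mul]
  let D : Z2 → ℝ → ℝ := fun k t => -2 * ν * (sq k ^ 2 * ‖f t k‖ ^ 2) -
    2 * ((starRingEnd ℂ) (f t k) * g t k).re
  have hphi : ∀ k, ∀ t ∈ Icc 0 T, HasDerivWithinAt (fun r => ‖f r k‖ ^ 2) (D k t)
      (Icc 0 T) t := by
    intro k t ht
    have h := (hder k t ht).norm_sq
    refine h.congr_deriv ?_
    rw [Complex.inner, mul_comm _ ((starRingEnd ℂ) (f t k)), mul_sub]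
    have e3 : (starRingEnd ℂ) (f t k) * (-((ν * sq k ^ 2 : ℝ) : ℂ) * f t k) =
        ((-(ν * sq k ^ 2) * ‖f t k‖ ^ 2 : ℝ) : ℂ) := by
      have e4 : (starRingEnd ℂ) (f t k) * f t k = ((‖f t k‖ ^ 2 : ℝ) : ℂ) := by
        rw [← Complex.normSq_eq_conj_mul_self, Complex.normSq_eq_norm_sq]
      push_cast
      push_cast at e4
      linear_combination (-(ν * sq k ^ 2 : ℂ)) * e4
    rw [Complex.sub_re, e3, Complex.ofReal_re]
    simp only [D]
    ring
  -- the sum of the derivatives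
  let Ψ : ℝ → ℝ := fun t => -2 * ν * dsS (f t) - 2 * pr t
  have hΨc : ContinuousOn Ψ (Icc 0 T) := by
    have h := (cds.const_smul (-2 * ν)).sub (cpr.const_smul (2 : ℝ))
    refine h.congr fun t _ => ?_
    simp [Ψ, smul_eq_mul]
  have hsumD : ∀ t ∈ Icc 0 T, HasSum (fun k => D k t) (Ψ t) := by
    intro t ht
    have h1 := (summable_ds hMMB (hf2.1 t ht)).1.hasSum.mul_left (-2 * ν)
    have h2 := (prdf_eq hMMB (hf0.1 t ht) (hg0.1 t ht)).mul_left 2
    exact h1.sub h2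
  let bd : Z2 → ℝ → ℝ := fun k t => 2 * ν * (sq k ^ 2 * ‖f t k‖ ^ 2) + (‖f t k‖ ^ 2 + ‖g t k‖ ^ 2)
  have hbd : ∀ k t, ‖D k t‖ ≤ bd k t := by
    intro k t
    have h1 := two_re_le (f t k) (g t k)
    have h3 : 0 ≤ 2 * ν * (sq k ^ 2 * ‖f t k‖ ^ 2) := by positivity
    rw [Real.norm_eq_abs]
    refine (abs_sub _ _).trans ?_
    have h4 : |(-2 * ν * (sq k ^ 2 * ‖f t k‖ ^ 2))| = 2 * ν * (sq k ^ 2 * ‖f t k‖ ^ 2) := by
      rw [show -2 * ν * (sq k ^ 2 * ‖f t k‖ ^ 2) = -(2 * ν * (sq k ^ 2 * ‖f t k‖ ^ 2)) by ring,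
        abs_neg, abs_of_nonneg h3]
    rw [h4]
    simp only [bd]
    linarith
  have hbs : ∀ t ∈ Icc 0 T, HasSum (fun k => bd k t)
      (2 * ν * dsS (f t) + (nqS 0 (f t) + nqS 0 (g t))) := by
    intro t ht
    have h1 := (summable_ds hMMB (hf2.1 t ht)).1.hasSum.mul_left (2 * ν)
    have h2 := ((memS_zero_iff _).1 (hf0.1 t ht)).hasSum
    have h3 := ((memS_zero_iff _).1 (hg0.1 t ht)).hasSum
    rw [← nqS_zero_eq] at h2 h3
    exact h1.add (h2.add h3)
  have hbc : ContinuousOn (fun t => 2 * ν * dsS (f t) + (nqS 0 (f t) + nqS 0 (g t)))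
      (Icc 0 T) := by
    have h := (cds.const_smul (2 * ν)).add ((ctsS_con hCON hf0).2.add (ctsS_con hCON hg0).2)
    refine h.congr fun t _ => ?_
    simp [smul_eq_mul]
  have hDc : ∀ k, ContinuousOn (fun t => D k t) (Icc 0 T) := by
    intro k
    have c1 : ContinuousOn (fun t => f t k) (Icc 0 T) := (ctsS_con hCON hf0).1 k
    have c3 : ContinuousOn (fun t => g t k) (Icc 0 T) := (ctsS_con hCON hg0).1 k
    have c4 : ContinuousOn (fun t => ((starRingEnd ℂ) (f t k) * g t k).re) (Icc 0 T) :=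
      Complex.continuous_re.comp_continuousOn
        ((Complex.continuous_conj.comp_continuousOn c1).mul c3)
    exact ((((c1.norm).pow 2).const_mul (sq k ^ 2)).const_mul (-2 * ν)).sub (c4.const_mul 2)
  -- the integrated identity
  have hint : ∀ t ∈ Icc 0 T, ∑' k, ‖f t k‖ ^ 2 = ∑' k, ‖f 0 k‖ ^ 2 + ∫ r in (0 : ℝ)..t, Ψ r := by
    intro t ht
    have hsub : Icc 0 t ⊆ Icc 0 T := Icc_subset_Icc le_rfl ht.2
    have h0T : (0 : ℝ) ∈ Icc 0 T := ⟨le_rfl, hT⟩
    have huI : Set.uIcc 0 t = Icc 0 t := uIcc_of_le ht.1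
    have hftc : ∀ k, ∫ r in (0 : ℝ)..t, D k r = ‖f t k‖ ^ 2 - ‖f 0 k‖ ^ 2 := by
      intro k
      refine intervalIntegral.integral_eq_sub_of_hasDerivAt_of_le ht.1
        (f := fun r => ‖f r k‖ ^ 2) ?_ ?_ ?_
      · exact fun r hr => ((hphi k r (hsub hr)).continuousWithinAt).mono hsub
      · intro r hr
        exact (hphi k r ⟨hr.1.le, hr.2.le.trans ht.2⟩).hasDerivAt
          (Icc_mem_nhds hr.1 (hr.2.trans_le ht.2))
      · refine ContinuousOn.intervalIntegrable ?_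
        rw [huI]
        exact (hDc k).mono hsub
    have hdom := intervalIntegral.hasSum_integral_of_dominated_convergence (μ := MeasureTheory.volume)
      (a := 0) (b := t) (F := D) (f := Ψ) bd
      (fun k => (((hDc k).mono (by rw [uIoc_of_le ht.1]; exact Ioc_subset_Icc_self.trans hsub) :
        ContinuousOn (fun r => D k r) (uIoc 0 t)).aestronglyMeasurable measurableSet_uIoc))
      (fun k => Eventually.of_forall fun r _ => hbd k r)
      (Eventually.of_forall fun r hr => (hbs r (by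
        rw [uIoc_of_le ht.1] at hr
        exact hsub (Ioc_subset_Icc_self hr))).summable)
      (by
        have h1 : ContinuousOn (fun r => ∑' k, bd k r) (Set.uIcc 0 t) := by
          rw [huI]
          exact (hbc.mono hsub).congr fun r hr => (hbs r (hsub hr)).tsum_eq
        exact h1.intervalIntegrable)
      (Eventually.of_forall fun r hr => hsumD r (by
        rw [uIoc_of_le ht.1] at hr
        exact hsub (Ioc_subset_Icc_self hr)))
    simp only [hftc] at hdom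
    have s1 := ((memS_zero_iff _).1 (hf0.1 t ht)).hasSum
    have s2 := ((memS_zero_iff _).1 (hf0.1 0 h0T)).hasSum
    have h3 := hdom.unique (s1.sub s2)
    rw [h3]
    ring
  -- differentiate
  intro t ht
  rw [(hsumD t ht).tsum_eq]
  let Ψe : ℝ → ℝ := IccExtend hT (fun x : Icc (0 : ℝ) T => Ψ x)
  have hΨe : Continuous Ψe := (hΨc.restrict).Icc_extend'
  have hΨeq : ∀ r ∈ Icc 0 T, Ψe r = Ψ r := by
    intro r hr
    exact IccExtend_of_mem hT _ hr
  have hd : HasDerivAt (fun r => ∑' k, ‖f 0 k‖ ^ 2 + ∫ x in (0 : ℝ)..r, Ψe x) (Ψe t) t :=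
    (intervalIntegral.integral_hasDerivAt_right (hΨe.intervalIntegrable 0 t)
      hΨe.stronglyMeasurable.stronglyMeasurableAtFilter hΨe.continuousAt).const_add _
  rw [hΨeq t ht] at hd
  refine (hd.hasDerivWithinAt (s := Icc 0 T)).congr (fun r hr => ?_) ?_
  · rw [hint r hr]
    congr 1
    refine intervalIntegral.integral_congr fun x hx => ?_
    rw [uIcc_of_le hr.1] at hx
    exact (hΨeq x ⟨hx.1, hx.2.trans hr.2⟩).symm
  · rw [hint t ht]
    congr 1
    refine intervalIntegral.integral_congr fun x hx => ?_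
    rw [uIcc_of_le ht.1] at hx
    exact (hΨeq x ⟨hx.1, hx.2.trans ht.2⟩).symm

/-- **WEN** -/
theorem wen_thm (hCON : CONStmt) (hADC : ADCStmt) (_hLIN : LINStmt) (hMMB : MMBStmt)
    (_hGRF : GRFStmt) : WENStmt := by
  intro ν s T u v ω hν hs hT hu hv hω j t ht
  have hcu2 : Cts 2 T u := cts_mono hMMB hs hu.cts
  have hcv2 : Cts 2 T v := cts_mono hMMB hs hv.cts
  have hcgu : Cts 0 T (fun t => adv (u t) (u t)) :=
    cts_mono hMMB (by linarith) (hADC s T u hs hu.cts)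
  have hcgv : Cts 0 T (fun t => adv (v t) (v t)) :=
    cts_mono hMMB (by linarith) (hADC s T v hs hv.cts)
  have hm1 : ∀ k, (√(ω k)) ^ 2 = ω k := fun k => Real.sq_sqrt (hω k).1
  have hm : ∀ k, (√(ω k)) ^ 2 ≤ 1 := fun k => by rw [hm1]; exact (hω k).2
  have hf2 : CtsS 2 T (fun r => mlt (fun k => √(ω k)) (v r j - u r j)) :=
    ctsS_mlt hMMB hm (ctsS_sub hMMB (ctsS_comp hMMB hcv2 j) (ctsS_comp hMMB hcu2 j))
  have hg0 : CtsS 0 T (fun r => mlt (fun k => √(ω k))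
      (adv (v r) (v r) j - adv (u r) (u r) j)) :=
    ctsS_mlt hMMB hm (ctsS_sub hMMB (ctsS_comp hMMB hcgv j) (ctsS_comp hMMB hcgu j))
  have hder : ∀ k, ∀ t ∈ Icc 0 T, HasDerivWithinAt
      (fun r => mlt (fun k => √(ω k)) (v r j - u r j) k)
      (-((ν * sq k ^ 2 : ℝ) : ℂ) * mlt (fun k => √(ω k)) (v t j - u t j) k -
        mlt (fun k => √(ω k)) (adv (v t) (v t) j - adv (u t) (u t) j) k) (Icc 0 T) t := by
    intro k t ht
    have h := ((hv.eqn j k t ht).sub (hu.eqn j k t ht)).const_mul ((√(ω k) : ℝ) : ℂ)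
    refine (h.congr_deriv ?_)
    simp only [mlt, Pi.sub_apply]
    ring
  have key := energy_gen hCON hMMB hν hT hf2 hg0 hder t ht
  have e1 : (fun r => ∑' k, ‖mlt (fun k => √(ω k)) (v r j - u r j) k‖ ^ 2) =
      fun r => ∑' k, ω k * ‖v r j k - u r j k‖ ^ 2 := by
    funext r
    refine tsum_congr fun k => ?_
    rw [norm_mlt, hm1]
    rfl
  have e2 : (∑' k, (-2 * ν * (sq k ^ 2 * ‖mlt (fun k => √(ω k)) (v t j - u t j) k‖ ^ 2) -
      2 * ((starRingEnd ℂ) (mlt (fun k => √(ω k)) (v t j - u t j) k) *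
        mlt (fun k => √(ω k)) (adv (v t) (v t) j - adv (u t) (u t) j) k).re)) =
      ∑' k, ω k * (-2 * ν * sq k ^ 2 * ‖v t j k - u t j k‖ ^ 2 -
        2 * ((starRingEnd ℂ) (v t j k - u t j k) *
          (adv (v t) (v t) j k - adv (u t) (u t) j k)).re) := by
    refine tsum_congr fun k => ?_
    rw [norm_mlt, hm1]
    have e3 : (starRingEnd ℂ) (mlt (fun k => √(ω k)) (v t j - u t j) k) *
        mlt (fun k => √(ω k)) (adv (v t) (v t) j - adv (u t) (u t) j) k =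
        ((ω k : ℝ) : ℂ) * ((starRingEnd ℂ) (v t j k - u t j k) *
          (adv (v t) (v t) j k - adv (u t) (u t) j k)) := by
      simp only [mlt, Pi.sub_apply, map_mul, Complex.conj_ofReal]
      have e4 : ((√(ω k) : ℝ) : ℂ) * ((√(ω k) : ℝ) : ℂ) = ((ω k : ℝ) : ℂ) := by
        rw [← Complex.ofReal_mul, Real.mul_self_sqrt (hω k).1]
      linear_combination ((starRingEnd ℂ) (v t j k - u t j k) *
          (adv (v t) (v t) j k - adv (u t) (u t) j k)) * e4
    rw [e3, Complex.re_ofReal_mul]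
    simp only [Pi.sub_apply]
    ring
  rw [e1, e2] at key
  exact key

end HB
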